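import Pool.Agent.Helper21.MT10.Stmts

/-!
MT10, row SHF: the additive functions given by an isolated degree.
-/

set_option autoImplicit false

namespace MT

namespace Shf80

/-- the odd function with values `M` at `N` and `-M` at `-N` -/
def chi (N M x : ℤ) : ℤ := if x = N then M else if x = -N then -M else 0

theorem chi_neg (N M x : ℤ) (hN : 0 < N) : chi N M (-x) = -chi N M x := by
  unfold chi
  split_ifs <;> omega

theorem core (S : Set ℤ) (N M : ℤ) (hN : 0 < N)
    (H1 : ∀ x ∈ S, x ≠ N ∧ x ≠ -N → x ≠ 3 * N ∧ x ≠ -(3 * N))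
    (H2 : ∀ x ∈ S, ∀ y ∈ S, x ≠ N ∧ x ≠ -N → y ≠ N ∧ y ≠ -N → x + y ≠ 2 * N ∧ x + y ≠ -(2 * N))
    (H3 : ∀ x ∈ S, ∀ y ∈ S, ∀ z ∈ S, x ≠ N ∧ x ≠ -N → y ≠ N ∧ y ≠ -N → z ≠ N ∧ z ≠ -N →
      x + y + z ≠ N ∧ x + y + z ≠ -N)
    (a b c e : ℤ) (ha : a ∈ S) (hb : b ∈ S) (hc : c ∈ S) (he : e ∈ S) (h0 : a + b + c + e = 0) :
    chi N M a + chi N M b + chi N M c + chi N M e = 0 := by
  have ta : a = N ∨ a = -N ∨ (a ≠ N ∧ a ≠ -N) := by omega
  have tb : b = N ∨ b = -N ∨ (b ≠ N ∧ b ≠ -N) := by omega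
  have tc : c = N ∨ c = -N ∨ (c ≠ N ∧ c ≠ -N) := by omega
  have te : e = N ∨ e = -N ∨ (e ≠ N ∧ e ≠ -N) := by omega
  have v1 : ∀ x : ℤ, x = N → chi N M x = M := by
    intro x hx
    unfold chi
    split_ifs <;> omega
  have v2 : ∀ x : ℤ, x = -N → chi N M x = -M := by
    intro x hx
    unfold chi
    split_ifs <;> omega
  have v3 : ∀ x : ℤ, (x ≠ N ∧ x ≠ -N) → chi N M x = 0 := by
    intro x hx
    unfold chi
    split_ifs <;> omega
  rcases ta with ta | ta | ta <;> rcases tb with tb | tb | tb <;> rcases tc with tc | tc | tc <;>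
    rcases te with te | te | te <;>
    first
    | (exfalso; have := H3 a ha b hb c hc ta tb tc; omega)
    | (exfalso; have := H3 a ha b hb e he ta tb te; omega)
    | (exfalso; have := H3 a ha c hc e he ta tc te; omega)
    | (exfalso; have := H3 b hb c hc e he tb tc te; omega)
    | (exfalso; have := H2 a ha b hb ta tb; omega)
    | (exfalso; have := H2 a ha c hc ta tc; omega)
    | (exfalso; have := H2 a ha e he ta te; omega)
    | (exfalso; have := H2 b hb c hc tb tc; omega)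
    | (exfalso; have := H2 b hb e he tb te; omega)
    | (exfalso; have := H2 c hc e he tc te; omega)
    | (exfalso; have := H1 a ha ta; omega)
    | (exfalso; have := H1 b hb tb; omega)
    | (exfalso; have := H1 c hc tc; omega)
    | (exfalso; have := H1 e he te; omega)
    | (first
       | rw [v1 a ta]
       | rw [v2 a ta]
       | rw [v3 a ta]
       first
       | rw [v1 b tb]
       | rw [v2 b tb]
       | rw [v3 b tb]
       first
       | rw [v1 c tc]
       | rw [v2 c tc]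
       | rw [v3 c tc]
       first
       | rw [v1 e te]
       | rw [v2 e te]
       | rw [v3 e te]
       omega)

end Shf80

open Shf80 in
theorem st_SHF : ST_SHF := by
  intro n d N hN hs hI u M c hc
  have hc' : ∀ x, c x = u * x + chi N M x := hc
  refine ⟨?_, ?_⟩
  · intro i
    rw [hc', hc', chi_neg N M _ hN]
    ring
  · intro i j k l h
    have hk := core (Set.range d) N M hN ?_ ?_ ?_ (d i) (-d j) (-d k) (d l) ⟨i, rfl⟩ ?_ ?_ ⟨l, rfl⟩
      (by omega)
    · rw [chi_neg N M _ hN, chi_neg N M _ hN] at hk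
      rw [hc', hc', hc', hc']
      have : u * d i - u * d j = u * d k - u * d l := by
        rw [← mul_sub, ← mul_sub, h]
      linarith
    · rintro _ ⟨x, rfl⟩ hx
      obtain ⟨x', hx'⟩ := hs x
      have h1 := (hI x x x hx hx hx).2.2
      have h2 := (hI x' x' x' (by omega) (by omega) (by omega)).2.2
      omega
    · rintro _ ⟨x, rfl⟩ _ ⟨y, rfl⟩ hx hy
      obtain ⟨x', hx'⟩ := hs x
      obtain ⟨y', hy'⟩ := hs y
      have h1 := (hI x y y hx hy hy).2.1
      have h2 := (hI x' y' y' (by omega) (by omega) (by omega)).2.1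
      omega
    · rintro _ ⟨x, rfl⟩ _ ⟨y, rfl⟩ _ ⟨z, rfl⟩ hx hy hz
      obtain ⟨x', hx'⟩ := hs x
      obtain ⟨y', hy'⟩ := hs y
      obtain ⟨z', hz'⟩ := hs z
      have h1 := (hI x y z hx hy hz).1
      have h2 := (hI x' y' z' (by omega) (by omega) (by omega)).1
      omega
    · obtain ⟨x', hx'⟩ := hs j
      exact ⟨x', hx'⟩
    · obtain ⟨x', hx'⟩ := hs k
      exact ⟨x', hx'⟩

end MT
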